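import Pool.Agent.helper84.NR.Spec

set_option autoImplicit false

namespace Pool.Agent.helper84.NR

open scoped Classical
open Finset

theorem GE8 (hNVQ : NVQ_stmt) (hLOW : LOW_stmt) (hUPP : UPP_stmt) (hSUQ : SUQ_stmt)
    (hARI : ARI_stmt) : GE8_stmt := by
  intro V F _ _ M x y hB
  have hyf : ∀ B ∈ YF M y, OnV M.toCyc B y := by
    intro B hBm
    exact (mem_filter.1 hBm).2
  have h1 := hARI F (YF M y) (fun B => ((shV M x B).card : ℤ)) (fun B => ((shE M x B).card : ℤ))
    (fun B => ((QQ M x B).card : ℤ)) (fun B => ((NN M x B).card : ℤ)) (fun B => ((PP M x B).card : ℤ))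
    ((univ.filter (fun v => Adj M.toCyc x v)).card : ℤ)
    (by
      intro B hBm
      have hy := hyf B hBm
      refine ⟨Int.natCast_nonneg _, Int.natCast_nonneg _, ?_, ?_, ?_⟩
      · have : (PP M x B) ⊆ (NN M x B) := by
          intro A hA
          obtain ⟨-, hAx, s, s', -, -, -, hs, -, hs', -⟩ := mem_filter.1 hA
          exact mem_filter.2 ⟨mem_univ _, hAx, s, hs, hs'⟩
        exact_mod_cast card_le_card this
      · intro hQ
        have hQ0 : QQ M x B = ∅ := by
          rw [← card_eq_zero]
          exact_mod_cast hQ
        have hP0 : PP M x B = ∅ := by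
          rw [← subset_empty]
          intro A hA
          obtain ⟨-, -, s, s', -, ha, -, -, -, hs, -⟩ := mem_filter.1 hA
          have : s ∈ QQ M x B := mem_filter.2 ⟨mem_univ _, ha, hs⟩
          rw [hQ0] at this
          exact absurd this (notMem_empty s)
        simp only [hP0, card_empty, Nat.cast_zero]
      · have hx : ¬ OnV M.toCyc B x := fun hx => hB.ne B ⟨hx, hy⟩
        have := hNVQ V F M x B hx
        exact_mod_cast this)
    (by
      intro B hBm hQ
      have hy := hyf B hBm
      have hne : (QQ M x B).Nonempty := by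
        rw [← card_pos]
        have : ((QQ M x B).card : ℤ) ≠ 0 := hQ
        omega
      have := hLOW V F M x y B hB hy hne
      exact_mod_cast this)
    (by
      intro B hBm
      have := hUPP V F M x y B hB (hyf B hBm)
      exact_mod_cast this)
    (by
      have := hSUQ V F M x y hB
      exact_mod_cast this)
    (by
      obtain ⟨f, k, hk⟩ := M.cover x
      have : M.bd f (k + 1) ∈ (univ.filter (fun v => Adj M.toCyc x v)) := by
        refine mem_filter.2 ⟨mem_univ _, f, k, ?_⟩
        rw [hk]
      have := card_pos.2 ⟨_, this⟩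
      exact_mod_cast this)
  refine h1.trans (le_of_eq ?_)
  refine sum_congr ?_ fun _ _ => rfl
  ext B
  rw [mem_filter, mem_filter]
  refine and_congr_right fun _ => ?_
  rw [← card_pos]
  constructor
  · intro h
    omega
  · intro h
    omega

end Pool.Agent.helper84.NR
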